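import Mathlib
import Pool.Agent.Q240.PlaneDIS

/-!
# MP_a51b5f_co: the number of `k`-dominating independent sets in the incidence graphs of
projective planes is not bounded by a polynomial

Let `K / F` be the quadratic extension of the field `F` with `p` elements, `π : K → F` a nonzero
`F`-linear functional and `T` a set of `⌊p/2⌋` points of `F × F`. In the Desarguesian plane over
`K` we take the affine points `(x, y)` with `(π x, π y) ∈ T` together with the directions at
infinity which are not in `F ∪ {∞}`, and all lines that do not meet this set. This is a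
`k`-dominating independent set as soon as `2 k ≤ p`, and different sets `T` give different sets.
-/

namespace Pool.Agent.Results.MP_a51b5f_co.Superpolynomial

open Pool.Agent.Q240.PlaneModel Pool.Agent.Q240.PlaneDIS Finset Module

open scoped Classical

/-- many `k`-dominating independent sets for one prime -/
theorem one_prime (k p : ℕ) (hp : p.Prime) (hk : 1 ≤ k) (hkp : 2 * k ≤ p) :
    ∃ (P L : Type) (_ : Membership P L) (_ : Fintype P) (_ : Fintype L)
      (_ : Configuration.ProjectivePlane P L),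
      Fintype.card (P ⊕ L) = 2 * (p ^ 4 + p ^ 2 + 1) ∧
      (p ^ 2).choose (p / 2) ≤ numKDIS (incGraph P L) k := by
  have : Fact p.Prime := ⟨hp⟩
  let F := ZMod p
  let K := GaloisField p 2
  let _ : Fintype K := Fintype.ofFinite K
  have hcK : Fintype.card K = p ^ 2 := by
    rw [← Nat.card_eq_fintype_card]
    exact GaloisField.card p 2 (by norm_num)
  have hcF : Fintype.card F = p := ZMod.card p
  obtain ⟨π, hπ⟩ := exists_ne (0 : K →ₗ[F] F)
  refine ⟨Pt K, Ln K, inferInstance, inferInstance, inferInstance, inferInstance, ?_, ?_⟩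
  · rw [Fintype.card_sum, card_pt, card_ln, hcK]
    ring
  · -- the kernel of `π`
    have hker : (univ.filter (fun u : K => π u = 0)).card = p := by
      have h1 : finrank F K = 2 := GaloisField.finrank p (by norm_num)
      have h2 := Module.Dual.finrank_ker_add_one_of_ne_zero (f := π) hπ
      rw [h1] at h2
      have h3 : finrank F (LinearMap.ker π) = 1 := by omega
      have h4 := Module.card_eq_pow_finrank (K := F) (V := LinearMap.ker π)
      rw [h3, pow_one, hcF] at h4
      refine Eq.trans ?_ h4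
      rw [← Fintype.card_subtype]
      exact Fintype.card_congr (Equiv.refl _)
    have hout : (univ.filter (fun m : K => m ∉ Set.range (algebraMap F K))).card = p ^ 2 - p := by
      have : (univ.filter (fun m : K => m ∉ Set.range (algebraMap F K)))
          = univ \ (univ.image (algebraMap F K)) := by
        ext m
        simp
      rw [this, card_sdiff_of_subset (subset_univ _), card_univ, hcK,
        card_image_of_injective _ (algebraMap F K).injective, card_univ, hcF]
    have h2p : 2 ≤ p := hp.two_le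
    have hsq : p + k ≤ p ^ 2 := by nlinarith
    unfold numKDIS
    have : (p ^ 2).choose (p / 2) = ((univ : Finset (F × F)).powersetCard (p / 2)).card := by
      rw [card_powersetCard, card_univ, Fintype.card_prod, hcF, sq]
    rw [this]
    refine card_le_card_of_injOn (DD (K := K) π) ?_ (DD_injective hπ).injOn
    intro T hT
    rw [mem_coe, mem_powersetCard_univ] at hT
    rw [mem_coe, mem_filter]
    refine ⟨mem_univ _, isKDIS hπ ?_ ?_ hk ?_ ?_⟩
    · refine le_of_le_of_eq (by omega : k ≤ p) ?_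
      convert hker.symm
    · refine le_of_le_of_eq (by omega : k ≤ p ^ 2 - p) ?_
      convert hout.symm
    · omega
    · rw [hcF]; omega

/-- the growth estimate -/
lemma growth (k : ℕ) (C c : ℝ) : ∃ p : ℕ, p.Prime ∧ 2 * k ≤ p ∧
    C * ((2 * (p ^ 4 + p ^ 2 + 1) : ℕ) : ℝ) ^ c < ((p ^ 2).choose (p / 2) : ℕ) := by
  obtain ⟨d, hd⟩ := exists_nat_ge c
  set B : ℝ := (|C| + 1) * 486 ^ d with hB
  have hBpos : 0 < B := by positivity
  have hlit := isLittleO_pow_const_const_pow_of_one_lt (R := ℝ) (4 * d) (r := 2) (by norm_num)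
  have hev := hlit.def (c := 1 / (2 * B)) (by positivity)
  rw [Filter.eventually_atTop] at hev
  obtain ⟨s₀, hs₀⟩ := hev
  obtain ⟨p, hple, hp⟩ := Nat.exists_infinite_primes (2 * (s₀ + k + 2))
  refine ⟨p, hp, by omega, ?_⟩
  set s := p / 2 with hs
  have hs1 : 1 ≤ s := by omega
  have hss : s₀ ≤ s := by omega
  have hp3 : p ≤ 3 * s := by omega
  have hbound := hs₀ s hss
  have hchoose : (2 : ℝ) ^ s ≤ ((p ^ 2).choose s : ℕ) := by
    have h1 : 2 ^ s ≤ (2 * s).choose s := by
      clear * -
      induction s with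
      | zero => simp
      | succ n ih =>
        have h2 : (2 * (n + 1)).choose (n + 1) = (2 * n + 1).choose n + (2 * n + 1).choose (n + 1) := by
          rw [show 2 * (n + 1) = (2 * n + 1) + 1 by ring, Nat.choose_succ_succ]
        have h3 : (2 * n + 1).choose (n + 1) = (2 * n).choose n + (2 * n).choose (n + 1) :=
          Nat.choose_succ_succ _ _
        have h4 : (2 * n + 1).choose n = (2 * n + 1).choose (n + 1) := by
          apply Nat.choose_symm_of_eq_add
          ring
        rw [pow_succ]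
        omega
    have h2 : (2 * s).choose s ≤ (p ^ 2).choose s := by
      apply Nat.choose_le_choose
      have : 2 * s ≤ p := by omega
      have hp1 : 1 ≤ p := hp.one_lt.le
      nlinarith
    exact_mod_cast h1.trans h2
  have hn : ((2 * (p ^ 4 + p ^ 2 + 1) : ℕ) : ℝ) ≤ 486 * (s : ℝ) ^ 4 := by
    have h1 : 2 * (p ^ 4 + p ^ 2 + 1) ≤ 6 * p ^ 4 := by
      have : 1 ≤ p := hp.one_lt.le
      have h2 : p ^ 2 ≤ p ^ 4 := Nat.pow_le_pow_right this (by norm_num)
      have h3 : 1 ≤ p ^ 4 := Nat.one_le_pow _ _ this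
      omega
    have h2 : p ^ 4 ≤ (3 * s) ^ 4 := Nat.pow_le_pow_left hp3 4
    have h3 : 2 * (p ^ 4 + p ^ 2 + 1) ≤ 486 * s ^ 4 := by
      calc _ ≤ 6 * p ^ 4 := h1
        _ ≤ 6 * (3 * s) ^ 4 := by omega
        _ = 486 * s ^ 4 := by ring
    exact_mod_cast h3
  have hn1 : (1 : ℝ) ≤ ((2 * (p ^ 4 + p ^ 2 + 1) : ℕ) : ℝ) := by
    have : 1 ≤ 2 * (p ^ 4 + p ^ 2 + 1) := by omega
    exact_mod_cast this
  have hpow : ((2 * (p ^ 4 + p ^ 2 + 1) : ℕ) : ℝ) ^ c ≤ (486 * (s : ℝ) ^ 4) ^ d := by
    calc ((2 * (p ^ 4 + p ^ 2 + 1) : ℕ) : ℝ) ^ c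
        ≤ ((2 * (p ^ 4 + p ^ 2 + 1) : ℕ) : ℝ) ^ (d : ℝ) := Real.rpow_le_rpow_of_exponent_le hn1 hd
      _ = ((2 * (p ^ 4 + p ^ 2 + 1) : ℕ) : ℝ) ^ d := Real.rpow_natCast _ _
      _ ≤ _ := pow_le_pow_left₀ (by linarith) hn d
  have hpos : 0 ≤ ((2 * (p ^ 4 + p ^ 2 + 1) : ℕ) : ℝ) ^ c := Real.rpow_nonneg (by linarith) c
  have hb2 : (s : ℝ) ^ (4 * d) ≤ 1 / (2 * B) * 2 ^ s := by
    have := hbound
    rw [Real.norm_of_nonneg (by positivity), Real.norm_of_nonneg (by positivity)] at this
    exact this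
  calc C * ((2 * (p ^ 4 + p ^ 2 + 1) : ℕ) : ℝ) ^ c
      ≤ (|C| + 1) * ((2 * (p ^ 4 + p ^ 2 + 1) : ℕ) : ℝ) ^ c := by
        apply mul_le_mul_of_nonneg_right _ hpos
        linarith [le_abs_self C]
    _ ≤ (|C| + 1) * (486 * (s : ℝ) ^ 4) ^ d := by
        apply mul_le_mul_of_nonneg_left hpow (by positivity)
    _ = B * (s : ℝ) ^ (4 * d) := by rw [hB, mul_pow, pow_mul]; ring
    _ ≤ B * (1 / (2 * B) * 2 ^ s) := mul_le_mul_of_nonneg_left hb2 hBpos.le
    _ = 2 ^ s / 2 := by field_simp
    _ < 2 ^ s := by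
        have : (0 : ℝ) < 2 ^ s := by positivity
        linarith
    _ ≤ _ := hchoose

/-- For every `k ≥ 1` the number of `k`-dominating independent sets of the incidence graph of a
finite projective plane is not bounded by a polynomial in the number of vertices. In fact, for every
prime `p ≥ 2 k` some projective plane of order `p ^ 2` has at least `(p ^ 2).choose (p / 2)` of
them. -/
theorem result :
    (∀ k : ℕ, 1 ≤ k → ∀ C c : ℝ, ∃ (P L : Type) (_ : Membership P L) (_ : Fintype P)
      (_ : Fintype L) (_ : Configuration.ProjectivePlane P L),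
      C * (Fintype.card (P ⊕ L) : ℝ) ^ c < numKDIS (incGraph P L) k) ∧
    ∀ k p : ℕ, p.Prime → 1 ≤ k → 2 * k ≤ p → ∃ (P L : Type) (_ : Membership P L) (_ : Fintype P)
      (_ : Fintype L) (_ : Configuration.ProjectivePlane P L),
      Fintype.card (P ⊕ L) = 2 * (p ^ 4 + p ^ 2 + 1) ∧
      (p ^ 2).choose (p / 2) ≤ numKDIS (incGraph P L) k := by
  refine ⟨?_, one_prime⟩
  intro k hk C c
  obtain ⟨p, hp, hkp, hlt⟩ := growth k C c
  obtain ⟨P, L, i1, i2, i3, i4, hcard, hnum⟩ := one_prime k p hp hk hkp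
  refine ⟨P, L, i1, i2, i3, i4, ?_⟩
  rw [hcard]
  refine hlt.trans_le ?_
  exact_mod_cast hnum

end Pool.Agent.Results.MP_a51b5f_co.Superpolynomial
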